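import Pool.Agent.Q98.SPN.Stm

/-!
Project GSP (helper834), package NET: nets of balls in a finite dimensional real normed space.
-/

set_option autoImplicit false

open Module

namespace Pool.Agent.U129.GSP.NET

open Pool.Agent.Q98.SPN

section

variable {E : Type} [NormedAddCommGroup E] [NormedSpace ℝ E] [FiniteDimensional ℝ E]

/-- A net of precision `1` of the ball of radius `2`. -/
lemma net_one (E : Type) [NormedAddCommGroup E] [NormedSpace ℝ E] [FiniteDimensional ℝ E] :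
    ∃ F : Finset E, F.card ≤ 5 ^ finrank ℝ E ∧ ∀ x : E, ‖x‖ ≤ 2 → ∃ y ∈ F, ‖x - y‖ ≤ 1 := by
  classical
  let A : Set ℕ := {n | ∃ s : Finset E, s.card = n ∧ (∀ c ∈ s, ‖c‖ ≤ 2) ∧
    ∀ c ∈ s, ∀ d ∈ s, c ≠ d → 1 ≤ ‖c - d‖}
  have hA : ∀ n ∈ A, n ≤ 5 ^ finrank ℝ E := by
    rintro n ⟨s, rfl, h1, h2⟩
    exact Besicovitch.card_le_of_separated s h1 h2
  have hne : A.Nonempty := ⟨0, ∅, by simp⟩
  have hbd : BddAbove A := ⟨_, hA⟩
  obtain ⟨s, hs, h1, h2⟩ := Nat.sSup_mem hne hbd
  refine ⟨s, hs ▸ hA _ (Nat.sSup_mem hne hbd), fun x hx => ?_⟩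
  by_contra hcon
  push Not at hcon
  have hxs : x ∉ s := by
    intro h
    have := hcon x h
    simp at this
    linarith
  have hmem : (insert x s).card ∈ A := by
    refine ⟨insert x s, rfl, ?_, ?_⟩
    · intro c hc
      rcases Finset.mem_insert.1 hc with rfl | hc
      · exact hx
      · exact h1 c hc
    · intro c hc d hd hcd
      rcases Finset.mem_insert.1 hc with hcx | hcs
      · rcases Finset.mem_insert.1 hd with hdx | hds
        · exact absurd (hcx.trans hdx.symm) hcd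
        · rw [hcx]
          exact (hcon d hds).le
      · rcases Finset.mem_insert.1 hd with hdx | hds
        · rw [hdx, norm_sub_rev]
          exact (hcon c hcs).le
        · exact h2 c hcs d hds hcd
  have h3 := le_csSup hbd hmem
  rw [Finset.card_insert_of_notMem hxs, hs] at h3
  omega

/-- A net of precision `δ` of the ball of radius `2 δ`. -/
lemma net_two (E : Type) [NormedAddCommGroup E] [NormedSpace ℝ E] [FiniteDimensional ℝ E] {δ : ℝ} (hδ : 0 < δ) :
    ∃ F : Finset E, F.card ≤ 5 ^ finrank ℝ E ∧ ∀ x : E, ‖x‖ ≤ 2 * δ → ∃ y ∈ F, ‖x - y‖ ≤ δ := by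
  classical
  obtain ⟨F, hF, h⟩ := net_one E
  refine ⟨F.image (fun y => δ • y), Finset.card_image_le.trans hF, fun x hx => ?_⟩
  obtain ⟨y, hy, hxy⟩ := h (δ⁻¹ • x) (by
    rw [norm_smul, Real.norm_of_nonneg (by positivity), inv_mul_le_iff₀ hδ]
    linarith)
  refine ⟨δ • y, Finset.mem_image_of_mem _ hy, ?_⟩
  have h1 : x - δ • y = δ • (δ⁻¹ • x - y) := by
    rw [smul_sub, smul_smul, mul_inv_cancel₀ hδ.ne', one_smul]
  rw [h1, norm_smul, Real.norm_of_nonneg hδ.le]
  calc δ * ‖δ⁻¹ • x - y‖ ≤ δ * 1 := by gcongr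
    _ = δ := mul_one δ

end

theorem t_NET : S_NET := by
  classical
  intro E _ _ _ j
  induction j with
  | zero =>
    intro δ hδ
    refine ⟨{0}, by simp, fun x hx => ⟨0, by simp, ?_⟩⟩
    simpa using hx
  | succ j ih =>
    intro δ hδ
    obtain ⟨F, hF, h⟩ := ih δ hδ
    obtain ⟨F', hF', h'⟩ := net_two E (δ := 2 ^ j * δ) (by positivity)
    refine ⟨(F' ×ˢ F).image (fun a => a.1 + a.2), ?_, fun x hx => ?_⟩
    · refine Finset.card_image_le.trans ?_
      rw [Finset.card_product, mul_add, mul_one, pow_add, mul_comm (5 ^ _)]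
      exact Nat.mul_le_mul hF' hF
    · obtain ⟨y, hy, hxy⟩ := h' x (by rw [pow_succ] at hx; linarith)
      obtain ⟨z, hz, hyz⟩ := h (x - y) hxy
      refine ⟨y + z, Finset.mem_image.2 ⟨(y, z), Finset.mk_mem_product hy hz, rfl⟩, ?_⟩
      rwa [← sub_sub]

end Pool.Agent.U129.GSP.NET
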